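import Pool.Agent.N993.WV.Hat

/-!
# Project WV: a relator with a generator that occurs only once (helper353)
-/

set_option autoImplicit false

namespace Pool.Agent.N353.WV

open Pool.Agent.N993.WT (SphericalDiagram DR)

theorem flip_ne {X : Type} (y : X × Bool) : Pool.Agent.N993.WT.flip y ≠ y := by
  intro h
  have h1 := congrArg Prod.snd h
  unfold Pool.Agent.N993.WT.flip at h1
  simp at h1

theorem flip_fst {X : Type} (y : X × Bool) : (Pool.Agent.N993.WT.flip y).1 = y.1 := rfl

theorem pos_lt {X R : Type} {r : R → List (X × Bool)} (D : SphericalDiagram r) (d : D.D) :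
    D.pos d < (r (D.cell d)).length := by
  have h := D.lett_eq d
  by_contra h1
  rw [List.getElem?_eq_none (not_lt.1 h1)] at h
  cases h

theorem exists_pos {X R : Type} {r : R → List (X × Bool)} (D : SphericalDiagram r) {e : R} {p : ℕ}
    (hp : p < (r e).length) (d : D.D) (hd : D.cell d = e) :
    ∃ d', D.cell d' = e ∧ D.pos d' = p := by
  have hlt : D.pos d < (r e).length := hd ▸ pos_lt D d
  cases hs : D.sgn d with
  | true =>
    have up : ∀ j i, (∃ d', D.cell d' = e ∧ D.sgn d' = true ∧ D.pos d' = i) →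
        i + j < (r e).length → ∃ d', D.cell d' = e ∧ D.sgn d' = true ∧ D.pos d' = i + j := by
      intro j
      induction j with
      | zero => exact fun i h _ => h
      | succ j ih =>
        intro i h hij
        obtain ⟨d', h1, h2, h3⟩ := ih i h (by omega)
        refine ⟨D.nxt d', by rw [D.cell_nxt, h1], by rw [D.sgn_nxt, h2], ?_⟩
        rw [D.pos_nxt, h2, if_pos rfl, h1, h3, if_neg (by omega)]
        omega
    obtain ⟨j, hj⟩ : ∃ j, D.pos d + j = (r e).length - 1 := ⟨(r e).length - 1 - D.pos d, by omega⟩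
    obtain ⟨d1, h1, h2, h3⟩ := up j _ ⟨d, hd, hs, rfl⟩ (by omega)
    have h4 : ∃ d', D.cell d' = e ∧ D.sgn d' = true ∧ D.pos d' = 0 := by
      refine ⟨D.nxt d1, by rw [D.cell_nxt, h1], by rw [D.sgn_nxt, h2], ?_⟩
      rw [D.pos_nxt, h2, if_pos rfl, h1, h3, if_pos (by omega)]
    obtain ⟨d2, h5, -, h6⟩ := up p 0 h4 (by omega)
    exact ⟨d2, h5, by omega⟩
  | false =>
    have down : ∀ j i, (∃ d', D.cell d' = e ∧ D.sgn d' = false ∧ D.pos d' = i + j) →
        ∃ d', D.cell d' = e ∧ D.sgn d' = false ∧ D.pos d' = i := by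
      intro j
      induction j with
      | zero => exact fun i h => h
      | succ j ih =>
        intro i h
        apply ih
        obtain ⟨d', h1, h2, h3⟩ := h
        refine ⟨D.nxt d', by rw [D.cell_nxt, h1], by rw [D.sgn_nxt, h2], ?_⟩
        rw [D.pos_nxt, h2, if_neg (by simp), h3, if_neg (by omega)]
        omega
    obtain ⟨d1, h1, h2, h3⟩ := down (D.pos d) 0 ⟨d, hd, hs, by omega⟩
    have h4 : ∃ d', D.cell d' = e ∧ D.sgn d' = false ∧ D.pos d' = p + ((r e).length - 1 - p) := by
      refine ⟨D.nxt d1, by rw [D.cell_nxt, h1], by rw [D.sgn_nxt, h2], ?_⟩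
      rw [D.pos_nxt, h2, if_neg (by simp), h1, h3, if_pos rfl]
      omega
    obtain ⟨d2, h5, -, h6⟩ := down _ p h4
    exact ⟨d2, h5, h6⟩

theorem t_ONCE : Pool.Agent.N993.WV.S_ONCE := by
  intro X R r e p x hb huniq D hred d hd
  obtain ⟨b, hb⟩ := hb
  have hp : p < (r e).length := by
    by_contra h1
    rw [List.getElem?_eq_none (not_lt.1 h1)] at hb
    cases hb
  obtain ⟨d', hc, hpos⟩ := exists_pos D hp d hd
  have h1 := D.lett_eq d'
  rw [hc, hpos, hb, Option.some_inj] at h1
  have hx : (D.lett d').1 = x := by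
    cases hs : D.sgn d' with
    | true =>
      rw [hs, if_pos rfl] at h1
      rw [← h1]
    | false =>
      rw [hs, if_neg (by simp)] at h1
      rw [← flip_fst, ← h1]
  have h2 := D.lett_eq (D.opp d')
  rw [D.lett_opp] at h2
  have hy : ∃ b', (if D.sgn (D.opp d') then Pool.Agent.N993.WT.flip (D.lett d') else
      Pool.Agent.N993.WT.flip (Pool.Agent.N993.WT.flip (D.lett d'))) = (x, b') := by
    split_ifs
    · exact ⟨(Pool.Agent.N993.WT.flip (D.lett d')).2, by rw [← hx]; rfl⟩
    · exact ⟨(Pool.Agent.N993.WT.flip (Pool.Agent.N993.WT.flip (D.lett d'))).2,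
        by rw [← hx]; rfl⟩
  obtain ⟨b', hb'⟩ := hy
  obtain ⟨hc', hp'⟩ := huniq (D.cell (D.opp d')) (D.pos (D.opp d')) b' (by rw [h2, hb'])
  rw [hc', hp', hb, Option.some_inj] at h2
  refine hred d' ⟨by rw [hc', hc], by rw [hp', hpos], fun hsgn => ?_⟩
  rw [hsgn] at h2
  rw [h1] at h2
  cases hs : D.sgn d' with
  | true =>
    rw [hs] at h2
    simp only [if_true] at h2
    exact flip_ne _ h2.symm
  | false =>
    rw [hs] at h2
    simp only [Bool.false_eq_true, if_false] at h2
    exact flip_ne _ h2.symm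

end Pool.Agent.N353.WV
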